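import Pool.Agent.Helper20.RE.Stm

/-!
Project RE (helper20): package G (paths of length three and averaging).
-/

set_option autoImplicit false
set_option linter.unusedSectionVars false

open Finset
open scoped Classical

namespace Pool.Agent.Helper80.RE

open Pool.Agent.W904.AK Pool.Agent.Helper20.RE

section

variable {Θ γ : Type} [Fintype Θ] {P : Θ → ℝ}

/-- the conditional laws of the gluing -/
lemma cd_glue (hP : IsLaw P) (Cc : Θ → γ) {c : γ} (hc : im P Cc c ≠ 0) :
    cd (glue P P Cc Cc) (fun z => Cc z.1) c = prodLaw (cd P Cc c) (cd P Cc c) := by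
  funext z
  have h1 : im (glue P P Cc Cc) (fun z => Cc z.1) c = im P Cc c :=
    im_glue_fst hP (fun _ => rfl) Cc c
  have h2 : im (cd P Cc c) (fun _ => ()) () = 1 := im_unit (cd_law hP Cc hc) ()
  unfold prodLaw
  conv_rhs => unfold glue
  rw [if_pos rfl, h2, div_one]
  conv_lhs => unfold cd
  rw [h1]
  by_cases hu : Cc z.1 = c
  · rw [if_pos hu]
    by_cases hv : Cc z.2 = c
    · unfold glue cd
      rw [if_pos (hu.trans hv.symm), if_pos hu, if_pos hv, hu]
      field_simp
    · unfold glue cd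
      rw [if_neg (fun h => hv (h.symm.trans hu)), if_neg hv, zero_div, mul_zero]
  · rw [if_neg hu]
    unfold cd
    rw [if_neg hu, zero_mul]

/-- averages of the entropies of independent sums over the conditional laws -/
lemma hh_avg (hP : IsLaw P) (Cc : Θ → γ) (f g : Θ → ℚ) :
    H (glue P P Cc Cc) (fun z => (Cc z.1, f z.1 + g z.2)) - H P Cc =
      ∑ x, P x * hh (cd P Cc (Cc x)) f (cd P Cc (Cc x)) g := by
  have hG : IsLaw (glue P P Cc Cc) := glue_law hP hP (fun _ => rfl)
  have h1 := chain hG (fun z => Cc z.1) (fun z => f z.1 + g z.2)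
  rw [H_glue_fst hP (fun _ => rfl) Cc] at h1
  rw [h1]
  have h2 : ∀ z, glue P P Cc Cc z * H (cd (glue P P Cc Cc) (fun z => Cc z.1) (Cc z.1))
      (fun z => f z.1 + g z.2) =
      glue P P Cc Cc z * hh (cd P Cc (Cc z.1)) f (cd P Cc (Cc z.1)) g := by
    intro z
    by_cases hz : glue P P Cc Cc z = 0
    · rw [hz, zero_mul, zero_mul]
    · obtain ⟨-, h3, -⟩ := glue_supp hz
      rw [cd_glue hP Cc (im_pos hP Cc h3).ne']
      rfl
  rw [Finset.sum_congr rfl fun z _ => h2 z]
  have h3 := sum_im_mul (glue P P Cc Cc) Prod.fst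
    (fun x => hh (cd P Cc (Cc x)) f (cd P Cc (Cc x)) g)
  rw [glue_fst hP (fun _ => rfl)] at h3
  exact h3.symm

/-- averages of the hypothesis over conditional laws -/
lemma avg {k : ℕ} (r : Fin k → ℚ) (C : ℝ)
    (hyp : ∀ (Ω : Type) [Fintype Ω] (p : Ω → ℝ) (x y : Ω → ℚ), IsLaw p →
      H p (fun ω => x ω - y ω) ≤ H p x + C *
        ∑ i, (2 * hh p x p (fun ω => r i * y ω) - H p x - H p y))
    (hP : IsLaw P) (Cc : Θ → γ) (f g : Θ → ℚ) :
    H P (fun z => (Cc z, f z - g z)) - H P Cc ≤ (H P (fun z => (Cc z, f z)) - H P Cc) + C * ∑ i,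
      (2 * (H (glue P P Cc Cc) (fun w => (Cc w.1, f w.1 + r i * g w.2)) - H P Cc) -
        (H P (fun z => (Cc z, f z)) - H P Cc) - (H P (fun z => (Cc z, g z)) - H P Cc)) := by
  have h0 : ∀ i, H (glue P P Cc Cc) (fun w => (Cc w.1, f w.1 + r i * g w.2)) - H P Cc =
      ∑ x, P x * hh (cd P Cc (Cc x)) f (cd P Cc (Cc x)) (fun z => r i * g z) :=
    fun i => hh_avg hP Cc f (fun z => r i * g z)
  simp only [h0]
  rw [chain hP Cc (fun z => f z - g z), chain hP Cc f, chain hP Cc g]
  obtain ⟨u, hu⟩ : ∃ u : Θ → ℝ, u = fun z => H (cd P Cc (Cc z)) f := ⟨_, rfl⟩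
  obtain ⟨v, hv⟩ : ∃ v : Θ → ℝ, v = fun z => H (cd P Cc (Cc z)) g := ⟨_, rfl⟩
  obtain ⟨w, hw⟩ : ∃ w : Fin k → Θ → ℝ, w = fun i z =>
    hh (cd P Cc (Cc z)) f (cd P Cc (Cc z)) (fun z => r i * g z) := ⟨_, rfl⟩
  have hu' : ∀ z, H (cd P Cc (Cc z)) f = u z := fun z => by rw [hu]
  have hv' : ∀ z, H (cd P Cc (Cc z)) g = v z := fun z => by rw [hv]
  have hw' : ∀ i z, hh (cd P Cc (Cc z)) f (cd P Cc (Cc z)) (fun z => r i * g z) = w i z :=
    fun i z => by rw [hw]
  have key : ∀ z, P z * H (cd P Cc (Cc z)) (fun z => f z - g z) ≤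
      P z * u z + C * ∑ i, (2 * (P z * w i z) - P z * u z - P z * v z) := by
    intro z
    by_cases hz : P z = 0
    · simp [hz]
    · have h1 := mul_le_mul_of_nonneg_left (hyp Θ (cd P Cc (Cc z)) f g
        (cd_law hP Cc (im_pos hP Cc hz).ne')) (hP.nonneg z)
      simp only [hu', hv', hw'] at h1
      refine h1.trans (le_of_eq ?_)
      rw [mul_add, ← mul_assoc, mul_comm (P z) C, mul_assoc, Finset.mul_sum]
      congr 2
      refine Finset.sum_congr rfl fun i _ => ?_
      ring
  refine (Finset.sum_le_sum fun z _ => key z).trans (le_of_eq ?_)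
  simp only [hu', hv', hw']
  rw [Finset.sum_add_distrib, ← Finset.mul_sum, Finset.sum_comm]
  congr 2
  refine Finset.sum_congr rfl fun i _ => ?_
  rw [Finset.sum_sub_distrib, Finset.sum_sub_distrib, Finset.mul_sum]

end

/-- **Package G.** -/
theorem s_S3 : S_S3 := by
  intro k r hr C hC hyp Ω _ p x y h hp hdet hx hy hs
  obtain ⟨a, ha⟩ : ∃ a, a = H p x := ⟨_, rfl⟩
  obtain ⟨b, hb⟩ : ∃ b, b = H p y := ⟨_, rfl⟩
  obtain ⟨s, hs'⟩ : ∃ s, s = H p (fun ω => x ω - y ω) := ⟨_, rfl⟩
  have hsp : s = H p (fun ω => (x ω, y ω)) := by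
    rw [hs']
    exact H_congr hp hdet fun ω ω' _ _ e => by
      have e1 := congrArg Prod.fst e
      have e2 := congrArg Prod.snd e
      dsimp only at e1 e2 ⊢
      rw [e1, e2]
  obtain ⟨P, hPdef⟩ : ∃ P, P = glue p p y y := ⟨_, rfl⟩
  have hok : ∀ c, im p y c = im p y c := fun _ => rfl
  have hP : IsLaw P := hPdef ▸ glue_law hp hp hok
  have hsupp : ∀ z, P z ≠ 0 → y z.1 = y z.2 := fun z hz => by
    rw [hPdef] at hz
    exact (glue_supp hz).1
  have hfst : ∀ {α : Type} (u : Ω → α), H P (fun z => u z.1) = H p u := fun u => by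
    rw [hPdef]
    exact H_glue_fst hp hok u
  have hsnd : ∀ {α : Type} (u : Ω → α), H P (fun z => u z.2) = H p u := fun u => by
    rw [hPdef]
    exact H_glue_snd hp hok u
  have hdfst : ∀ {α β : Type} {u : Ω → α} {v : Ω → β}, Det p u v →
      Det P (fun z => u z.1) (fun z => v z.1) := fun h => by
    rw [hPdef]
    exact h.glue_fst
  have hdet2 : Det p (fun ω => (x ω, y ω)) y := Det.snd p x y
  -- entropies under `P`
  have e3 : H P (fun z => ((x z.1, y z.1), (x z.2, y z.2))) = 2 * s - b := by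
    rw [hPdef, H_glue hp hp hok hdet2 hdet2, ← hsp, ← hb]
    ring
  have eQ : H P (fun z => ((x z.1, y z.1), x z.2)) = 2 * s - b := by
    rw [← e3]
    refine H_congr hP (fun z z' hz hz' e => ?_) (fun z z' hz hz' e => ?_)
    · have e1 := congrArg Prod.fst e
      have e2 := congrArg Prod.snd e
      have e4 := congrArg Prod.snd e1
      dsimp only at e1 e2 e4 ⊢
      rw [← hsupp z hz, ← hsupp z' hz', e1, e2, e4]
    · have e1 := congrArg Prod.fst e
      have e2 := congrArg Prod.snd e
      have e4 := congrArg Prod.fst e2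
      dsimp only at e1 e2 e4 ⊢
      rw [e1, e4]
  have hx2 : H P (fun z => x z.2) = a := by rw [hsnd x, ha]
  have hx0 : H P (fun z => x z.1) = a := by rw [hfst x, ha]
  have hy1 : H P (fun z => y z.1) = b := by rw [hfst y, hb]
  have hlow : 2 * s - b ≤ H P (fun z => (x z.2, x z.1 - y z.1)) := by
    rw [← eQ]
    refine H_mono hP fun z z' hz hz' e => ?_
    have e1 := congrArg Prod.fst e
    have e2 := congrArg Prod.snd e
    have e4 := hdfst hdet z z' hz hz' e2
    dsimp only at e1 e2 e4 ⊢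
    rw [e4, e1]
  have hup : H P (fun z => (x z.2, x z.1)) ≤ 2 * a := by
    have := subadd hP (f := fun z => x z.2) (g := fun z => x z.1)
      (k := fun z => (x z.2, x z.1)) (Det.refl _ _)
    linarith
  have hlow2 : 2 * s - 2 * b ≤ H P (fun z => (x z.2, x z.1)) := by
    have := subadd hP (f := fun z => (x z.2, x z.1)) (g := fun z => y z.1)
      (k := fun z => ((x z.1, y z.1), x z.2)) (fun z z' _ _ e => by
        have e1 := congrArg Prod.fst e
        have e2 := congrArg Prod.snd e
        have e3 := congrArg Prod.fst e1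
        have e4 := congrArg Prod.snd e1
        dsimp only at e1 e2 e3 e4 ⊢
        rw [e2, e3, e4])
    linarith
  have hxy : H P (fun z => (x z.2, y z.1)) = s := by
    rw [hsp, ← hsnd (fun ω => (x ω, y ω))]
    refine H_congr hP (fun z z' hz hz' e => ?_) (fun z z' hz hz' e => ?_)
    · have e1 := congrArg Prod.fst e
      have e2 := congrArg Prod.snd e
      dsimp only at e1 e2 ⊢
      rw [← hsupp z hz, ← hsupp z' hz', e1, e2]
    · have e1 := congrArg Prod.fst e
      have e2 := congrArg Prod.snd e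
      dsimp only at e1 e2 ⊢
      rw [hsupp z hz, hsupp z' hz', e1, e2]
  -- the second gluing
  obtain ⟨Q, hQdef⟩ : ∃ Q, Q = glue P P (fun z => x z.2) (fun z => x z.2) := ⟨_, rfl⟩
  have hokQ : ∀ c, im P (fun z : Ω × Ω => x z.2) c = im P (fun z : Ω × Ω => x z.2) c :=
    fun _ => rfl
  have hQ : IsLaw Q := hQdef ▸ glue_law hP hP hokQ
  have hsuppQ : ∀ w, Q w ≠ 0 → x w.1.2 = x w.2.2 ∧ y w.1.1 = y w.1.2 ∧ y w.2.1 = y w.2.2 :=
    fun w hw => by
      rw [hQdef] at hw
      obtain ⟨h1, h2, h3⟩ := glue_supp hw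
      exact ⟨h1, hsupp _ h2, hsupp _ h3⟩
  have hfstQ : ∀ {α : Type} (u : Ω × Ω → α), H Q (fun w => u w.1) = H P u := fun u => by
    rw [hQdef]
    exact H_glue_fst hP hokQ u
  have hsndQ : ∀ {α : Type} (u : Ω × Ω → α), H Q (fun w => u w.2) = H P u := fun u => by
    rw [hQdef]
    exact H_glue_snd hP hokQ u
  have e4 : H Q (fun w => (((x w.1.1, y w.1.1), x w.1.2), (x w.2.2, y w.2.1))) =
      3 * s - a - b := by
    have h1 : Det P (fun z => ((x z.1, y z.1), x z.2)) (fun z => x z.2) := Det.snd P _ _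
    have h2 : Det P (fun z => (x z.2, y z.1)) (fun z => x z.2) := Det.fst P _ _
    have h3 := H_glue hP hP hokQ h1 h2
    rw [← hQdef, eQ, hxy, hx2] at h3
    rw [h3]
    ring
  have hsum : ∀ i, H Q (fun w => x w.1.1 + r i * y w.2.1) ≤ 5 * h - (3 * s - a - b) := by
    intro i
    have h1 : H Q (fun w => (((x w.1.1, y w.1.1), x w.1.2), (x w.2.2, y w.2.1))) +
        H Q (fun w => x w.1.1 + r i * y w.2.1) ≤
        H Q (fun w => ((x w.1.1 + r i * y w.1.1, x w.1.2 + r i * y w.1.2),
          x w.2.2 + r i * y w.2.2)) + H Q (fun w => (x w.1.1, y w.2.1)) := by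
      refine submod' hQ (fun w w' hw hw' e => ?_) (fun w w' hw hw' e => ?_)
        (fun w w' hw hw' e => ?_)
      · obtain ⟨g1, g2, g3⟩ := hsuppQ w hw
        obtain ⟨g1', g2', g3'⟩ := hsuppQ w' hw'
        have e1 := congrArg Prod.fst e
        have e2 := congrArg Prod.snd e
        have e3 := congrArg Prod.fst e1
        have e4 := congrArg Prod.snd e1
        dsimp only at e1 e2 e3 e4 ⊢
        rw [g3, g3']
        rw [← g1, ← g1'] at e2
        rw [g2, g2'] at e3
        linear_combination e3 - e4 + e2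
      · have e1 := congrArg Prod.fst e
        have e2 := congrArg Prod.snd e
        dsimp only at e1 e2 ⊢
        rw [e1, e2]
      · obtain ⟨g1, g2, g3⟩ := hsuppQ w hw
        obtain ⟨g1', g2', g3'⟩ := hsuppQ w' hw'
        have e1 := congrArg Prod.fst e
        have e2 := congrArg Prod.snd e
        have e3 := congrArg Prod.fst (congrArg Prod.fst e1)
        have e4 := congrArg Prod.snd (congrArg Prod.fst e1)
        have e5 := congrArg Prod.snd e1
        have e6 := congrArg Prod.fst e2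
        have e7 := congrArg Prod.snd e2
        dsimp only at e3 e4 e5 e6 e7 ⊢
        have f1 : y w.1.1 = y w'.1.1 := by
          have : r i * y w.1.1 = r i * y w'.1.1 := by linear_combination e3 - e6
          exact mul_left_cancel₀ (hr i) this
        have f2 : x w.1.2 = x w'.1.2 := by
          rw [← g2, ← g2', f1] at e4
          linear_combination e4
        rw [e6, f1, f2, ← g1, ← g1', f2, e7]
    have h2 : H Q (fun w => ((x w.1.1 + r i * y w.1.1, x w.1.2 + r i * y w.1.2),
        x w.2.2 + r i * y w.2.2)) ≤ 3 * h := by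
      have h3 := subadd hQ (f := fun w => (x w.1.1 + r i * y w.1.1, x w.1.2 + r i * y w.1.2))
        (g := fun w => x w.2.2 + r i * y w.2.2)
        (k := fun w => ((x w.1.1 + r i * y w.1.1, x w.1.2 + r i * y w.1.2),
          x w.2.2 + r i * y w.2.2)) (Det.refl _ _)
      have h4 := subadd hQ (f := fun w => x w.1.1 + r i * y w.1.1)
        (g := fun w => x w.1.2 + r i * y w.1.2)
        (k := fun w => (x w.1.1 + r i * y w.1.1, x w.1.2 + r i * y w.1.2)) (Det.refl _ _)
      have h5 : H Q (fun w => x w.1.1 + r i * y w.1.1) ≤ h := by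
        rw [hfstQ (fun z => x z.1 + r i * y z.1), hfst (fun ω => x ω + r i * y ω)]
        exact hs i
      have h6 : H Q (fun w => x w.1.2 + r i * y w.1.2) ≤ h := by
        rw [hfstQ (fun z => x z.2 + r i * y z.2), hsnd (fun ω => x ω + r i * y ω)]
        exact hs i
      have h7 : H Q (fun w => x w.2.2 + r i * y w.2.2) ≤ h := by
        rw [hsndQ (fun z => x z.2 + r i * y z.2), hsnd (fun ω => x ω + r i * y ω)]
        exact hs i
      linarith
    have h3 : H Q (fun w => (x w.1.1, y w.2.1)) ≤ 2 * h := by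
      have h4 := subadd hQ (f := fun w => x w.1.1) (g := fun w => y w.2.1)
        (k := fun w => (x w.1.1, y w.2.1)) (Det.refl _ _)
      have h5 : H Q (fun w => x w.1.1) ≤ h := by
        rw [hfstQ (fun z => x z.1), hfst x]
        exact hx
      have h6 : H Q (fun w => y w.2.1) ≤ h := by
        rw [hsndQ (fun z => y z.1), hfst y]
        exact hy
      linarith
    linarith
  -- averaging
  have havg : H P (fun z => (x z.2, x z.1 - y z.1)) - H P (fun z => x z.2) ≤
      (H P (fun z => (x z.2, x z.1)) - H P (fun z => x z.2)) + C * ∑ i,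
        (2 * (H Q (fun w => (x w.1.2, x w.1.1 + r i * y w.2.1)) - H P (fun z => x z.2)) -
          (H P (fun z => (x z.2, x z.1)) - H P (fun z => x z.2)) -
          (H P (fun z => (x z.2, y z.1)) - H P (fun z => x z.2))) := by
    have h1 := avg r C hyp hP (fun z => x z.2) (fun z => x z.1) (fun z => y z.1)
    rw [← hQdef] at h1
    exact h1
  have hi : ∀ i, (2 * (H Q (fun w => (x w.1.2, x w.1.1 + r i * y w.2.1)) - H P (fun z => x z.2)) -
      (H P (fun z => (x z.2, x z.1)) - H P (fun z => x z.2)) -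
      (H P (fun z => (x z.2, y z.1)) - H P (fun z => x z.2))) ≤ 9 * (2 * h - s) := by
    intro i
    have h1 := subadd hQ (f := fun w => x w.1.2) (g := fun w => x w.1.1 + r i * y w.2.1)
      (k := fun w => (x w.1.2, x w.1.1 + r i * y w.2.1)) (Det.refl _ _)
    rw [hfstQ (fun z => x z.2), hx2] at h1
    rw [hx2, hxy]
    have h2 := hsum i
    rw [← ha] at hx
    rw [← hb] at hy
    linarith
  have hsumi : C * ∑ i : Fin k,
      (2 * (H Q (fun w => (x w.1.2, x w.1.1 + r i * y w.2.1)) - H P (fun z => x z.2)) -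
      (H P (fun z => (x z.2, x z.1)) - H P (fun z => x z.2)) -
      (H P (fun z => (x z.2, y z.1)) - H P (fun z => x z.2))) ≤ C * (k * (9 * (2 * h - s))) := by
    refine mul_le_mul_of_nonneg_left ?_ hC
    have := Finset.sum_le_sum fun i (_ : i ∈ (Finset.univ : Finset (Fin k))) => hi i
    rwa [Finset.sum_const, Finset.card_univ, Fintype.card_fin, nsmul_eq_mul] at this
  rw [hx2] at havg hsumi
  rw [← ha] at hx
  rw [← hb] at hy
  have hk : (0 : ℝ) < 2 + 9 * k * C := by positivity
  rw [← hs']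
  have hfin : s * (2 + 9 * k * C) ≤ (3 + 18 * k * C) * h := by linarith
  have heq : (2 - 1 / (2 + 9 * (k : ℝ) * C)) * h = (3 + 18 * k * C) * h / (2 + 9 * k * C) := by
    field_simp
    ring
  rw [heq, le_div_iff₀ hk]
  exact hfin

end Pool.Agent.Helper80.RE
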