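import Pool.Agent.Helper20.RE.Stm3
import Pool.Graph.R_pool_sql_team_seeded_64922ed1.X163.Ak.Mink

/-! # Package PL: coverings of sets with the pattern `x`, `x + ρ`, `x + q_i ρ` -/

set_option autoImplicit false

open Finset
open scoped Classical

namespace Pool.Agent.Helper80.RE

open Pool.Agent.Helper20.RE Pool.Agent.X163.Ak

/-- translation by integer multiples of `δ` -/
theorem fl_add {n : ℕ} {δ : ℝ} (hδ : 0 < δ) {x y : EuclideanSpace ℝ (Fin n)} {e : Fin n → ℤ}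
    (h : ∀ i, y i = x i + δ * (e i : ℝ)) : fl δ y = fl δ x + e := by
  funext i
  show ⌊y i / δ⌋ = ⌊x i / δ⌋ + e i
  rw [h i, ← Int.floor_add_intCast]
  congr 1
  field_simp

/-- the cubes near the centres of the balls -/
noncomputable def box {n : ℕ} (δ : ℝ) (P : Finset (EuclideanSpace ℝ (Fin n))) :
    Finset (Fin n → ℤ) :=
  P.biUnion fun x => Fintype.piFinset fun i => Finset.Icc (⌊x i / δ⌋ - 1) (⌊x i / δ⌋ + 1)

theorem card_box {n : ℕ} (δ : ℝ) (P : Finset (EuclideanSpace ℝ (Fin n))) :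
    (box δ P).card ≤ 3 ^ n * P.card := by
  refine Finset.card_biUnion_le.trans ?_
  refine (Finset.sum_le_card_nsmul _ _ (3 ^ n) fun x _ => ?_).trans (le_of_eq ?_)
  · rw [Fintype.card_piFinset]
    refine (Finset.prod_le_pow_card _ _ 3 fun i _ => ?_).trans (le_of_eq ?_)
    · rw [Int.card_Icc]; omega
    · rw [Finset.card_univ, Fintype.card_fin]
  · rw [smul_eq_mul, Nat.mul_comm]

theorem fl_mem_box {n : ℕ} {δ : ℝ} (hδ : 0 < δ) {P : Finset (EuclideanSpace ℝ (Fin n))}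
    {B : Set (EuclideanSpace ℝ (Fin n))} (hcov : B ⊆ ⋃ x ∈ P, Metric.ball x δ)
    {y : EuclideanSpace ℝ (Fin n)} (hy : y ∈ B) : fl δ y ∈ box δ P := by
  have e3 := hcov hy
  simp only [Set.mem_iUnion, Metric.mem_ball, exists_prop] at e3
  obtain ⟨x, hx, hxd⟩ := e3
  refine Finset.mem_biUnion.2 ⟨x, hx, ?_⟩
  rw [Fintype.mem_piFinset]
  intro i
  have e4 : |y i + (0 : ℕ) * 0 - x i| < δ := by
    refine lt_of_le_of_lt ?_ hxd
    rw [dist_eq_norm]
    have := PiLp.norm_apply_le (y - x) i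
    rw [Real.norm_eq_abs] at this
    simpa using this
  have e5 := fl_prog hδ e4
  simpa [fl] using e5

/-- Package PL -/
theorem s_PL : S_PL := by
  intro k q hq κ hκ hE n
  obtain ⟨Q, hQ, hQq⟩ : ∃ Q : ℕ, 0 < Q ∧ ∀ i, ∃ z : ℤ, q i * Q = z := by
    refine ⟨∏ i, (q i).den, Finset.prod_pos fun i _ => (q i).pos, fun i => ?_⟩
    obtain ⟨w, hw⟩ := Finset.dvd_prod_of_mem (fun i => (q i).den) (Finset.mem_univ i)
    refine ⟨(q i).num * w, ?_⟩
    rw [hw]
    push_cast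
    rw [← mul_assoc, Rat.mul_den_eq_num]
  choose z hz using hQq
  have hQr : (0 : ℝ) < Q := by exact_mod_cast hQ
  refine ⟨((3 : ℝ) ^ n)⁻¹ * (Q : ℝ) ^ (-((n : ℝ) / κ)), by positivity, fun B hB δ hδ hδ1 P hcov => ?_⟩
  obtain ⟨D, hD⟩ : ∃ D : Finset (Fin n → ℤ), D =
      Fintype.piFinset fun _ => Finset.Icc (0 : ℤ) ⌊1 / (Q * δ)⌋ := ⟨_, rfl⟩
  obtain ⟨ρ, hρ⟩ : ∃ ρ : (Fin n → ℤ) → EuclideanSpace ℝ (Fin n), ∀ d i, ρ d i = δ * (Q * d i) :=
    ⟨fun d => WithLp.toLp 2 fun i => δ * (Q * (d i : ℝ)), fun d i => rfl⟩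
  have h1 : ∀ d : Fin n → ℤ, ∃ x : EuclideanSpace ℝ (Fin n), d ∈ D → x ∈ B ∧ x + ρ d ∈ B ∧
      ∀ i, x + ((q i : ℚ) : ℝ) • ρ d ∈ B := by
    intro d
    by_cases hd : d ∈ D
    · obtain ⟨x, h⟩ := hB (ρ d) fun i => by
        rw [hD, Fintype.mem_piFinset] at hd
        have h1 := Finset.mem_Icc.1 (hd i)
        have h2 : (0 : ℝ) ≤ d i := by exact_mod_cast h1.1
        have h3 : (d i : ℝ) ≤ 1 / (Q * δ) := (Int.cast_le.2 h1.2).trans (Int.floor_le _)
        rw [le_div_iff₀ (by positivity)] at h3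
        rw [hρ]
        constructor
        · positivity
        · linarith
      exact ⟨x, fun _ => h⟩
    · exact ⟨0, fun h => absurd h hd⟩
  choose x hx using h1
  obtain ⟨v, hv⟩ := sep_form D
  obtain ⟨φ, hφ⟩ : ∃ φ : (Fin n → ℤ) → ℤ, ∀ x, φ x = ∑ i, x i * v i := ⟨_, fun _ => rfl⟩
  have hadd : ∀ (x y : Fin n → ℤ) (m : ℤ), φ (x + m • y) = φ x + m * φ y := by
    intro x y m
    rw [hφ, hφ, hφ, Finset.mul_sum, ← Finset.sum_add_distrib]
    refine Finset.sum_congr rfl fun i _ => ?_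
    simp only [Pi.add_apply, Pi.smul_apply, smul_eq_mul]
    ring
  obtain ⟨X, hX⟩ : ∃ X : (Fin n → ℤ) → (Fin n → ℤ), ∀ d, X d = fl δ (x d) := ⟨_, fun _ => rfl⟩
  have m0 : ∀ d ∈ D, X d ∈ box δ P := fun d hd => by
    rw [hX]; exact fl_mem_box hδ hcov (hx d hd).1
  have m1 : ∀ d ∈ D, X d + (Q : ℤ) • d ∈ box δ P := fun d hd => by
    have h := fl_mem_box hδ hcov (hx d hd).2.1
    have e : fl δ (x d + ρ d) = fl δ (x d) + (Q : ℤ) • d := by
      refine fl_add hδ fun i => ?_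
      show x d i + ρ d i = _
      rw [hρ]
      simp only [Pi.smul_apply, smul_eq_mul]
      push_cast
      ring
    rw [e] at h
    rw [hX]; exact h
  have m2 : ∀ j, ∀ d ∈ D, X d + z j • d ∈ box δ P := fun j d hd => by
    have h := fl_mem_box hδ hcov ((hx d hd).2.2 j)
    have e : fl δ (x d + ((q j : ℚ) : ℝ) • ρ d) = fl δ (x d) + z j • d := by
      refine fl_add hδ fun i => ?_
      show x d i + ((q j : ℚ) : ℝ) * ρ d i = _
      have hzj : ((q j : ℚ) : ℝ) * Q = z j := by exact_mod_cast congrArg (Rat.cast (K := ℝ)) (hz j)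
      rw [hρ]
      simp only [Pi.smul_apply, smul_eq_mul]
      push_cast
      rw [← hzj]
      ring
    rw [e] at h
    rw [hX]; exact h
  obtain ⟨A, hA⟩ : ∃ A : Finset (ℤ × ℤ), A = D.image fun d => (φ (X d + (Q : ℤ) • d), φ (X d)) :=
    ⟨_, rfl⟩
  have hE1 := hE A
  have c0 : (pr (-1) A).card = D.card := by
    rw [pr, hA, Finset.image_image]
    refine Finset.card_image_of_injOn fun d hd d' hd' h => ?_
    have h' : ((φ (X d + (Q : ℤ) • d) : ℤ) : ℚ) + (-1) * (φ (X d) : ℤ) =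
        ((φ (X d' + (Q : ℤ) • d') : ℤ) : ℚ) + (-1) * (φ (X d') : ℤ) := h
    rw [hadd, hadd] at h'
    push_cast at h'
    have h2 : (Q : ℚ) * φ d = Q * φ d' := by linarith
    have h3 : (φ d : ℚ) = φ d' := mul_left_cancel₀ (by exact_mod_cast hQ.ne') h2
    have h4 : φ d = φ d' := by exact_mod_cast h3
    rw [hφ, hφ] at h4
    exact hv hd hd' h4
  have ci : (prInf A).card ≤ (box δ P).card := by
    rw [prInf, hA, Finset.image_image]
    refine le_trans (Finset.card_le_card (t := (box δ P).image fun e => ((φ e : ℤ) : ℚ)) ?_)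
      Finset.card_image_le
    intro y hy
    obtain ⟨d, hd, rfl⟩ := Finset.mem_image.1 hy
    exact Finset.mem_image.2 ⟨X d, m0 d hd, rfl⟩
  have c1 : (pr 0 A).card ≤ (box δ P).card := by
    rw [pr, hA, Finset.image_image]
    refine le_trans (Finset.card_le_card (t := (box δ P).image fun e => ((φ e : ℤ) : ℚ)) ?_)
      Finset.card_image_le
    intro y hy
    obtain ⟨d, hd, rfl⟩ := Finset.mem_image.1 hy
    refine Finset.mem_image.2 ⟨X d + (Q : ℤ) • d, m1 d hd, ?_⟩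
    simp
  have c2 : ∀ j, (pr (1 / q j - 1) A).card ≤ (box δ P).card := by
    intro j
    rw [pr, hA, Finset.image_image]
    refine le_trans (Finset.card_le_card (t := (box δ P).image fun e => 1 / q j * ((φ e : ℤ) : ℚ)) ?_)
      Finset.card_image_le
    intro y hy
    obtain ⟨d, hd, rfl⟩ := Finset.mem_image.1 hy
    refine Finset.mem_image.2 ⟨X d + z j • d, m2 j d hd, ?_⟩
    simp only [Function.comp]
    rw [hadd, hadd]
    push_cast
    rw [← hz j]
    have := hq j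
    field_simp
    ring
  have ctop : top (fun i => 1 / q i - 1) A ≤ (box δ P).card :=
    max_le (max_le c1 ci) (Finset.sup_le fun j _ => c2 j)
  have h5 : (D.card : ℝ) ≤ ((3 ^ n * P.card : ℕ) : ℝ) ^ κ := by
    rw [c0] at hE1
    refine hE1.trans (Real.rpow_le_rpow (Nat.cast_nonneg _) ?_ hκ.le)
    exact_mod_cast ctop.trans (card_box δ P)
  rw [hD, Fintype.card_piFinset] at h5
  simp only [Finset.prod_const, Finset.card_univ, Fintype.card_fin, Int.card_Icc] at h5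
  have h0 : 0 ≤ ⌊1 / (Q * δ)⌋ := Int.floor_nonneg.2 (by positivity)
  have h1 : 1 / (Q * δ) ≤ (((⌊1 / (Q * δ)⌋ + 1 - 0).toNat : ℕ) : ℝ) := by
    have h2 := Int.lt_floor_add_one (1 / (Q * δ))
    have h3 : ((((⌊1 / (Q * δ)⌋ + 1 - 0).toNat : ℕ) : ℤ) : ℝ) = ((⌊1 / (Q * δ)⌋ + 1 : ℤ) : ℝ) := by
      rw [Int.toNat_of_nonneg (by omega)]; push_cast; ring
    have h4 : (((⌊1 / (Q * δ)⌋ + 1 - 0).toNat : ℕ) : ℝ) = ((⌊1 / (Q * δ)⌋ + 1 : ℤ) : ℝ) := by
      rw [← h3]; push_cast; rfl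
    rw [h4]
    push_cast
    exact h2.le
  have h2 : (1 / (Q * δ)) ^ n ≤ ((3 ^ n * P.card : ℕ) : ℝ) ^ κ := by
    refine le_trans ?_ h5
    push_cast
    exact pow_le_pow_left₀ (by positivity) h1 n
  have h3 : ((1 / (Q * δ)) ^ n) ^ (1 / κ) ≤ ((3 ^ n * P.card : ℕ) : ℝ) := by
    have := Real.rpow_le_rpow (by positivity) h2 (show 0 ≤ 1 / κ by positivity)
    rwa [← Real.rpow_mul (Nat.cast_nonneg _), mul_one_div_cancel hκ.ne', Real.rpow_one] at this
  have h4 : ((1 / (Q * δ)) ^ n) ^ (1 / κ) = (Q : ℝ) ^ (-((n : ℝ) / κ)) * δ ^ (-((n : ℝ) / κ)) := by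
    rw [← Real.mul_rpow hQr.le hδ.le, ← Real.rpow_natCast (1 / (Q * δ)) n,
      ← Real.rpow_mul (by positivity), one_div, Real.inv_rpow (by positivity),
      ← Real.rpow_neg (by positivity)]
    congr 1
    ring
  rw [h4] at h3
  push_cast at h3
  rw [mul_assoc, inv_mul_le_iff₀ (by positivity)]
  exact h3

end Pool.Agent.Helper80.RE
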